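import Mathlib

open Finset Filter Topology
open scoped Nat

namespace Pool.Agent.Results.MP_d1aba8_pr.TypicalStartFails

noncomputable section

/-! ### Definitions used in the statement -/

/-- `Q` is the generator (rate matrix) of a continuous-time Markov chain. -/
def IsGenerator {S : Type} [Fintype S] (Q : Matrix S S ℝ) : Prop :=
  (∀ x y, x ≠ y → 0 ≤ Q x y) ∧ ∀ x, ∑ y, Q x y = 0

/-- The chain is irreducible: any state can be reached from any state along jumps of positive
rate. -/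
def IsIrreducible {S : Type} (Q : Matrix S S ℝ) : Prop :=
  ∀ x y, Relation.ReflTransGen (fun a b => a ≠ b ∧ 0 < Q a b) x y

/-- `π` is a stationary probability distribution of the chain with generator `Q`. -/
def IsStationary {S : Type} [Fintype S] (π : S → ℝ) (Q : Matrix S S ℝ) : Prop :=
  (∀ x, 0 ≤ π x) ∧ ∑ x, π x = 1 ∧ ∀ y, ∑ x, π x * Q x y = 0

/-- The law of `X_t` under `P_x`: the row of `x` in `exp(tQ)`. -/
def law {S : Type} [Fintype S] [DecidableEq S] (Q : Matrix S S ℝ) (t : ℝ) (x : S) : S → ℝ :=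
  fun y => NormedSpace.exp (t • Q) x y

/-- Total variation distance `sup_A |μ(A) - ν(A)|`. -/
def tv {S : Type} (μ ν : S → ℝ) : ℝ :=
  ⨆ A : Finset S, |∑ y ∈ A, μ y - ∑ y ∈ A, ν y|

/-- `‖P_x(X_t ∈ ·) - π‖`. -/
def dist {S : Type} [Fintype S] [DecidableEq S] (Q : Matrix S S ℝ) (π : S → ℝ) (x : S)
    (t : ℝ) : ℝ := tv (law Q t x) π

/-- `τ_x = inf {t ≥ 0 : ‖P_x(X_t ∈ ·) - π‖ ≤ 1/4}`. -/
def tauAt {S : Type} [Fintype S] [DecidableEq S] (Q : Matrix S S ℝ) (π : S → ℝ) (x : S) : ℝ :=
  sInf {t : ℝ | 0 ≤ t ∧ dist Q π x t ≤ 1 / 4}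

/-- `m` is a median of the random variable `f x` when `x` is drawn from `π`. -/
def IsMedian {S : Type} [Fintype S] (π : S → ℝ) (f : S → ℝ) (m : ℝ) : Prop :=
  1 / 2 ≤ ∑ x with f x ≤ m, π x ∧ 1 / 2 ≤ ∑ x with m ≤ f x, π x

/-- The spectral gap: the smallest real part of a nonzero (complex) eigenvalue of `-Q`. -/
def specGap {S : Type} [Fintype S] [DecidableEq S] (Q : Matrix S S ℝ) : ℝ :=
  sInf {r : ℝ | ∃ z ∈ spectrum ℂ (-(Q.map (algebraMap ℝ ℂ))), z ≠ 0 ∧ r = z.re}

/-- The relaxation time. -/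
def relaxTime {S : Type} [Fintype S] [DecidableEq S] (Q : Matrix S S ℝ) : ℝ := 1 / specGap Q

/-! ### The chain -/

section chain

variable {N : ℕ}

/-- the shift `x ↦ min (x+1) N` on `{0,…,N}` -/
def sh (x : Fin (N + 1)) : Fin (N + 1) := ⟨min (x.1 + 1) N, by omega⟩

/-- the jump matrix: with probability `q` go to `0`, otherwise go to `min (x+1) N` -/
def PP (N : ℕ) (q : ℝ) : Matrix (Fin (N + 1)) (Fin (N + 1)) ℝ :=
  fun x y => (if y = 0 then q else 0) + (if y = sh x then 1 - q else 0)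

/-- the generator `P - I` -/
def QQ (N : ℕ) (q : ℝ) : Matrix (Fin (N + 1)) (Fin (N + 1)) ℝ := PP N q - 1

/-- the stationary law -/
def pp (N : ℕ) (q : ℝ) : Fin (N + 1) → ℝ :=
  fun y => if y.1 < N then q * (1 - q) ^ y.1 else (1 - q) ^ N

theorem sh_iter (x : Fin (N + 1)) (k : ℕ) : (sh^[k] x).1 = min (x.1 + k) N := by
  induction k with
  | zero => simp; omega
  | succ k ih => rw [Function.iterate_succ_apply']; simp only [sh, ih]; omega

/-- indicator -/
def ind (A : Finset (Fin (N + 1))) (y : Fin (N + 1)) : ℝ := if y ∈ A then 1 else 0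

theorem ind_nonneg (A : Finset (Fin (N + 1))) (y) : 0 ≤ ind A y := by
  unfold ind; split_ifs <;> norm_num

theorem ind_le_one (A : Finset (Fin (N + 1))) (y) : ind A y ≤ 1 := by
  unfold ind; split_ifs <;> norm_num

theorem sum_ind (A : Finset (Fin (N + 1))) (f : Fin (N + 1) → ℝ) :
    ∑ y ∈ A, f y = ∑ y, f y * ind A y := by
  simp [ind, Finset.sum_ite_mem]

theorem PP_apply_fun (q : ℝ) (x : Fin (N + 1)) (f : Fin (N + 1) → ℝ) :
    ∑ y, PP N q x y * f y = q * f 0 + (1 - q) * f (sh x) := by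
  simp [PP, add_mul, Finset.sum_add_distrib]

theorem PP_pow_fun (q : ℝ) (k : ℕ) (x : Fin (N + 1)) (f : Fin (N + 1) → ℝ) :
    ∑ y, (PP N q ^ k) x y * f y
      = (1 - q) ^ k * f (sh^[k] x) + ∑ j ∈ range k, q * (1 - q) ^ j * f (sh^[j] 0) := by
  induction k generalizing x with
  | zero => simp [Matrix.one_apply]
  | succ k ih =>
    have h1 : ∑ y, (PP N q ^ (k + 1)) x y * f y
        = ∑ z, PP N q x z * ∑ y, (PP N q ^ k) z y * f y := by
      simp only [pow_succ', Matrix.mul_apply, Finset.sum_mul, Finset.mul_sum]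
      rw [Finset.sum_comm]
      simp only [mul_assoc]
    rw [h1, PP_apply_fun, ih, ih, Finset.sum_range_succ, ← Function.iterate_succ_apply]
    ring

theorem pp_nonneg {q : ℝ} (h0 : 0 ≤ q) (h1 : q ≤ 1) (y) : 0 ≤ pp N q y := by
  have : 0 ≤ 1 - q := by linarith
  unfold pp; split_ifs <;> positivity

theorem PP_pow_N {q : ℝ} (x y : Fin (N + 1)) : (PP N q ^ N) x y = pp N q y := by
  have h := PP_pow_fun (N := N) q N x (fun z => if z = y then 1 else 0)
  simp only [mul_ite, mul_one, mul_zero, Finset.sum_ite_eq', Finset.mem_univ, if_true] at h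
  rw [h]
  unfold pp
  have hN : sh^[N] x = Fin.last N := by
    apply Fin.ext; rw [sh_iter]; simp
  rw [hN]
  split_ifs with h1 h2 h2
  · exfalso; rw [← h1] at h2; simp at h2
  · have : ∀ j ∈ range N, sh^[j] (0 : Fin (N + 1)) ≠ y := by
      intro j hj hjy
      have := sh_iter (N := N) 0 j
      rw [hjy] at this
      simp at this
      have hj' := Finset.mem_range.mp hj
      have : y.1 < N := by omega
      exact h2 this
    rw [Finset.sum_eq_zero (fun j hj => if_neg (this j hj)), add_zero]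
  · rw [Finset.sum_eq_single y.1]
    · rw [if_pos]
      · ring
      · apply Fin.ext; rw [sh_iter]; simp; omega
    · intro j hj hjy
      rw [if_neg]
      intro h3
      have h4 := sh_iter (N := N) 0 j
      rw [h3] at h4
      have hj' := Finset.mem_range.mp hj
      simp at h4
      omega
    · intro h3
      exact absurd (Finset.mem_range.mpr h2) h3
  · exfalso
    apply h1
    apply Fin.ext
    simp
    omega

theorem PP_row_sum (q : ℝ) (x : Fin (N + 1)) : ∑ y, PP N q x y = 1 := by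
  have := PP_apply_fun (N := N) q x (fun _ => 1)
  simpa using this

theorem PP_pow_row_sum (q : ℝ) (k : ℕ) (x : Fin (N + 1)) : ∑ y, (PP N q ^ k) x y = 1 := by
  induction k generalizing x with
  | zero => simp [Matrix.one_apply]
  | succ k ih =>
    simp only [pow_succ', Matrix.mul_apply]
    rw [Finset.sum_comm]
    simp only [← Finset.mul_sum, ih, mul_one]
    exact PP_row_sum q x

theorem pp_sum (q : ℝ) : ∑ y, pp N q y = 1 := by
  have := PP_pow_row_sum (N := N) q N 0
  simpa only [PP_pow_N] using this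

theorem PP_pow_succ (q : ℝ) : PP N q ^ (N + 1) = PP N q ^ N := by
  ext x y
  rw [pow_succ', Matrix.mul_apply]
  simp only [PP_pow_N]
  rw [← Finset.sum_mul, PP_row_sum, one_mul]

theorem pp_stat (q : ℝ) (y : Fin (N + 1)) : ∑ x, pp N q x * PP N q x y = pp N q y := by
  have h : PP N q ^ (N + 1) = PP N q ^ N := PP_pow_succ q
  have h1 : (PP N q ^ (N + 1)) 0 y = ∑ x, pp N q x * PP N q x y := by
    rw [pow_succ, Matrix.mul_apply]
    simp only [PP_pow_N]
  rw [← h1, h, PP_pow_N]

theorem pp_stat_pow (q : ℝ) (k : ℕ) (y : Fin (N + 1)) :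
    ∑ x, pp N q x * (PP N q ^ k) x y = pp N q y := by
  induction k generalizing y with
  | zero => simp [Matrix.one_apply]
  | succ k ih =>
    have : ∀ x, pp N q x * (PP N q ^ (k + 1)) x y
        = ∑ l, pp N q x * (PP N q ^ k) x l * PP N q l y := by
      intro x
      rw [pow_succ, Matrix.mul_apply, Finset.mul_sum]
      exact Finset.sum_congr rfl fun l _ => by ring
    simp only [this]
    rw [Finset.sum_comm]
    simp only [← Finset.sum_mul, ih]
    exact pp_stat q y

theorem pp_decomp (q : ℝ) (k : ℕ) (A : Finset (Fin (N + 1))) :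
    ∑ y ∈ A, pp N q y = (1 - q) ^ k * ∑ x, pp N q x * ind A (sh^[k] x)
      + ∑ j ∈ range k, q * (1 - q) ^ j * ind A (sh^[j] 0) := by
  have h1 : ∑ y ∈ A, pp N q y = ∑ x, pp N q x * ∑ y, (PP N q ^ k) x y * ind A y := by
    rw [sum_ind]
    have : ∀ y, pp N q y * ind A y = ∑ x, pp N q x * (PP N q ^ k) x y * ind A y := by
      intro y
      rw [← Finset.sum_mul, pp_stat_pow]
    simp only [this]
    rw [Finset.sum_comm]
    refine Finset.sum_congr rfl fun x _ => ?_
    rw [Finset.mul_sum]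
    exact Finset.sum_congr rfl fun y _ => by ring
  rw [h1]
  simp only [PP_pow_fun, mul_add, Finset.sum_add_distrib]
  congr 1
  · rw [Finset.mul_sum]
    exact Finset.sum_congr rfl fun y _ => by ring
  · rw [← Finset.sum_mul, pp_sum, one_mul]

theorem PP_pow_diff {q : ℝ} (h0 : 0 ≤ q) (h1 : q ≤ 1) (k : ℕ) (x : Fin (N + 1))
    (A : Finset (Fin (N + 1))) :
    |∑ y ∈ A, (PP N q ^ k) x y - ∑ y ∈ A, pp N q y| ≤ (1 - q) ^ k := by
  rw [sum_ind A ((PP N q ^ k) x), PP_pow_fun, pp_decomp q k A]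
  have h2 : 0 ≤ (1 - q) ^ k := pow_nonneg (by linarith) k
  have h3 : 0 ≤ ∑ x, pp N q x * ind A (sh^[k] x) :=
    Finset.sum_nonneg fun x _ => mul_nonneg (pp_nonneg h0 h1 x) (ind_nonneg _ _)
  have h4 : ∑ x, pp N q x * ind A (sh^[k] x) ≤ 1 := by
    rw [← pp_sum (N := N) q]
    refine Finset.sum_le_sum fun x _ => ?_
    have := mul_le_mul_of_nonneg_left (ind_le_one A (sh^[k] x)) (pp_nonneg (N := N) h0 h1 x)
    linarith
  have h5 := ind_nonneg A (sh^[k] x)
  have h6 := ind_le_one A (sh^[k] x)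
  rw [abs_le]
  constructor <;> nlinarith

/-! ### the continuous-time semigroup -/

attribute [local instance] Matrix.linftyOpNormedRing Matrix.linftyOpNormedAlgebra in
theorem exp_hasSum (q t : ℝ) (x y : Fin (N + 1)) :
    HasSum (fun k : ℕ => Real.exp (-t) * t ^ k / k ! * (PP N q ^ k) x y)
      (law (QQ N q) t x y) := by
  have h1 : t • QQ N q = t • PP N q + (-t) • (1 : Matrix (Fin (N + 1)) (Fin (N + 1)) ℝ) := by
    rw [QQ, smul_sub]; simp [sub_eq_add_neg]
  have hc : Commute (t • PP N q) ((-t) • (1 : Matrix (Fin (N + 1)) (Fin (N + 1)) ℝ)) :=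
    ((Commute.one_right _).smul_right _)
  have h2 : NormedSpace.exp (t • QQ N q)
      = NormedSpace.exp (t • PP N q) * NormedSpace.exp ((-t) • (1 : Matrix (Fin (N + 1)) (Fin (N + 1)) ℝ)) := by
    rw [h1]; exact Matrix.exp_add_of_commute _ _ hc
  have h3 : NormedSpace.exp ((-t) • (1 : Matrix (Fin (N + 1)) (Fin (N + 1)) ℝ))
      = Real.exp (-t) • (1 : Matrix (Fin (N + 1)) (Fin (N + 1)) ℝ) := by
    have := NormedSpace.algebraMap_exp_comm (𝕂 := ℝ) (𝔸 := Matrix (Fin (N + 1)) (Fin (N + 1)) ℝ) (-t)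
    rw [Algebra.algebraMap_eq_smul_one, Algebra.algebraMap_eq_smul_one, ← Real.exp_eq_exp_ℝ] at this
    exact this.symm
  have h4 : HasSum (fun n : ℕ => ((n ! : ℝ)⁻¹) • (t • PP N q) ^ n) (NormedSpace.exp (t • PP N q)) :=
    NormedSpace.exp_series_hasSum_exp' (𝕂 := ℝ) _
  have h5 : HasSum (fun n : ℕ => (((n ! : ℝ)⁻¹) • (t • PP N q) ^ n) x y)
      (NormedSpace.exp (t • PP N q) x y) := by
    have hx := Pi.hasSum.mp h4 x
    exact Pi.hasSum.mp hx y
  have h6 : law (QQ N q) t x y = Real.exp (-t) * NormedSpace.exp (t • PP N q) x y := by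
    unfold law
    rw [h2, h3, Matrix.mul_smul, mul_one, Matrix.smul_apply, smul_eq_mul]
  rw [h6]
  have h7 := h5.mul_left (Real.exp (-t))
  refine h7.congr_fun fun k => ?_
  simp only [smul_pow, Matrix.smul_apply, smul_eq_mul]
  ring

theorem hasSum_exp_mul (t c : ℝ) :
    HasSum (fun k : ℕ => Real.exp (-t) * t ^ k / k ! * c ^ k) (Real.exp (-((1 - c) * t))) := by
  have h0 : HasSum (fun k : ℕ => (t * c) ^ k / k !) (Real.exp (t * c)) := by
    rw [Real.exp_eq_exp_ℝ]
    exact NormedSpace.expSeries_div_hasSum_exp (t * c)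
  have h := h0.mul_left (Real.exp (-t))
  have h2 : Real.exp (-t) * Real.exp (t * c) = Real.exp (-((1 - c) * t)) := by
    rw [← Real.exp_add]; congr 1; ring
  rw [h2] at h
  refine h.congr_fun fun k => ?_
  rw [mul_pow]; ring

theorem hasSum_weights (t : ℝ) :
    HasSum (fun k : ℕ => Real.exp (-t) * t ^ k / k !) 1 := by
  have h := hasSum_exp_mul t 1
  simpa using h

theorem law_sum_hasSum (q t : ℝ) (x : Fin (N + 1)) (A : Finset (Fin (N + 1))) :
    HasSum (fun k : ℕ => Real.exp (-t) * t ^ k / k ! * ∑ y ∈ A, (PP N q ^ k) x y)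
      (∑ y ∈ A, law (QQ N q) t x y) := by
  have h := hasSum_sum (s := A) (f := fun y k => Real.exp (-t) * t ^ k / k ! * (PP N q ^ k) x y)
    (a := fun y => law (QQ N q) t x y) (fun y _ => exp_hasSum q t x y)
  simpa only [Finset.mul_sum] using h

theorem abs_law_sub_le {q t : ℝ} (h0 : 0 ≤ q) (h1 : q ≤ 1) (ht : 0 ≤ t) (x : Fin (N + 1))
    (A : Finset (Fin (N + 1))) :
    |∑ y ∈ A, law (QQ N q) t x y - ∑ y ∈ A, pp N q y| ≤ Real.exp (-(q * t)) := by
  have h2 := (law_sum_hasSum q t x A).sub ((hasSum_weights t).mul_right (∑ y ∈ A, pp N q y))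
  rw [one_mul] at h2
  have h3 := hasSum_exp_mul t (1 - q)
  rw [sub_sub_cancel] at h3
  have h4 := tsum_of_norm_bounded (f := fun k : ℕ => Real.exp (-t) * t ^ k / k ! *
    ∑ y ∈ A, (PP N q ^ k) x y - Real.exp (-t) * t ^ k / k ! * ∑ y ∈ A, pp N q y) h3 (by
      intro k
      rw [← mul_sub, Real.norm_eq_abs, abs_mul]
      have hw : 0 ≤ Real.exp (-t) * t ^ k / k ! := by positivity
      rw [abs_of_nonneg hw]
      exact mul_le_mul_of_nonneg_left (PP_pow_diff h0 h1 k x A) hw)
  rw [h2.tsum_eq, Real.norm_eq_abs] at h4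
  exact h4

theorem law_last_ge {q t : ℝ} (h0 : 0 ≤ q) (h1 : q ≤ 1) (ht : 0 ≤ t) :
    Real.exp (-(q * t)) ≤ law (QQ N q) t (Fin.last N) (Fin.last N) := by
  have h3 := hasSum_exp_mul t (1 - q)
  rw [sub_sub_cancel] at h3
  refine hasSum_le ?_ h3 (exp_hasSum q t (Fin.last N) (Fin.last N))
  intro k
  have hw : 0 ≤ Real.exp (-t) * t ^ k / k ! := by positivity
  refine mul_le_mul_of_nonneg_left ?_ hw
  have h := PP_pow_fun (N := N) q k (Fin.last N) (fun z => if z = Fin.last N then 1 else 0)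
  simp only [mul_ite, mul_one, mul_zero, Finset.sum_ite_eq', Finset.mem_univ, if_true] at h
  rw [h]
  have hN : sh^[k] (Fin.last N) = Fin.last N := by
    apply Fin.ext; rw [sh_iter]; simp
  rw [hN, if_pos rfl]
  have h5 : 0 ≤ ∑ j ∈ range k, (if sh^[j] (0 : Fin (N + 1)) = Fin.last N then q * (1 - q) ^ j else 0) := by
    refine Finset.sum_nonneg fun j _ => ?_
    split_ifs
    · exact mul_nonneg h0 (pow_nonneg (by linarith) j)
    · exact le_rfl
  linarith

theorem bdd_tv (μ ν : Fin (N + 1) → ℝ) :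
    BddAbove (Set.range fun A : Finset (Fin (N + 1)) => |∑ y ∈ A, μ y - ∑ y ∈ A, ν y|) :=
  (Set.finite_range _).bddAbove

theorem dist_le {q t : ℝ} (h0 : 0 ≤ q) (h1 : q ≤ 1) (ht : 0 ≤ t) (x : Fin (N + 1)) :
    dist (QQ N q) (pp N q) x t ≤ Real.exp (-(q * t)) :=
  ciSup_le fun A => abs_law_sub_le h0 h1 ht x A

theorem le_dist_last {q t : ℝ} (h0 : 0 ≤ q) (h1 : q ≤ 1) (ht : 0 ≤ t) :
    Real.exp (-(q * t)) - (1 - q) ^ N ≤ dist (QQ N q) (pp N q) (Fin.last N) t := by
  have h := le_ciSup (bdd_tv (law (QQ N q) t (Fin.last N)) (pp N q)) {Fin.last N}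
  refine le_trans ?_ h
  simp only [Finset.sum_singleton]
  have h2 := law_last_ge (N := N) h0 h1 ht
  have h3 : pp N q (Fin.last N) = (1 - q) ^ N := by simp [pp]
  rw [h3]
  exact le_trans (by linarith) (le_abs_self _)

/-! ### structure of the chain -/

theorem QQ_generator {q : ℝ} (h0 : 0 ≤ q) (h1 : q ≤ 1) : IsGenerator (QQ N q) := by
  constructor
  · intro x y hxy
    simp only [QQ, Matrix.sub_apply, Matrix.one_apply_ne hxy, sub_zero, PP]
    split_ifs <;> linarith
  · intro x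
    simp [QQ, Matrix.sub_apply, Finset.sum_sub_distrib, PP_row_sum, Matrix.one_apply]

theorem QQ_stationary {q : ℝ} (h0 : 0 ≤ q) (h1 : q ≤ 1) : IsStationary (pp N q) (QQ N q) := by
  refine ⟨pp_nonneg h0 h1, pp_sum q, fun y => ?_⟩
  simp only [QQ, Matrix.sub_apply, mul_sub, Finset.sum_sub_distrib, pp_stat]
  simp [Matrix.one_apply]

theorem QQ_irreducible {q : ℝ} (h0 : 0 < q) (h1 : q < 1) : IsIrreducible (QQ N q) := by
  have hdown : ∀ x : Fin (N + 1),
      Relation.ReflTransGen (fun a b => a ≠ b ∧ 0 < QQ N q a b) x 0 := by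
    intro x
    by_cases hx : x = 0
    · rw [hx]
    · refine Relation.ReflTransGen.single ⟨hx, ?_⟩
      simp only [QQ, Matrix.sub_apply, Matrix.one_apply_ne hx, sub_zero, PP]
      split_ifs <;> linarith
  have hup : ∀ k : ℕ, ∀ hk : k < N + 1,
      Relation.ReflTransGen (fun a b => a ≠ b ∧ 0 < QQ N q a b) 0 ⟨k, hk⟩ := by
    intro k
    induction k with
    | zero => intro hk; exact Relation.ReflTransGen.refl
    | succ k ih =>
      intro hk
      refine (ih (by omega)).tail ⟨?_, ?_⟩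
      · intro h; have := congrArg Fin.val h; simp at this
      · have hne : (⟨k, by omega⟩ : Fin (N + 1)) ≠ ⟨k + 1, hk⟩ := by
          intro h; have := congrArg Fin.val h; simp at this
        have hs : (⟨k + 1, hk⟩ : Fin (N + 1)) = sh ⟨k, by omega⟩ := by
          apply Fin.ext; simp [sh]; omega
        have hz : (⟨k + 1, hk⟩ : Fin (N + 1)) ≠ 0 := by
          intro h; have := congrArg Fin.val h; simp at this
        simp only [QQ, Matrix.sub_apply, Matrix.one_apply_ne hne, sub_zero, PP]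
        rw [if_neg hz, if_pos hs]
        linarith
  intro x y
  exact (hdown x).trans (hup y.1 y.2)

theorem specGap_QQ (hN : 1 ≤ N) (q : ℝ) : specGap (QQ N q) = 1 := by
  set Pc : Matrix (Fin (N + 1)) (Fin (N + 1)) ℂ := (PP N q).map (algebraMap ℝ ℂ) with hPc
  have hneg : -((QQ N q).map (algebraMap ℝ ℂ)) = 1 - Pc := by
    ext x y
    simp only [QQ, hPc, Matrix.neg_apply, Matrix.map_apply, Matrix.sub_apply, map_sub]
    have : algebraMap ℝ ℂ ((1 : Matrix (Fin (N + 1)) (Fin (N + 1)) ℝ) x y)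
        = (1 : Matrix (Fin (N + 1)) (Fin (N + 1)) ℂ) x y := by
      simp only [Matrix.one_apply]; split_ifs <;> simp
    rw [this]; ring
  have hpow : ∀ k, Pc ^ k = (PP N q ^ k).map (algebraMap ℝ ℂ) := by
    intro k
    exact (map_pow (algebraMap ℝ ℂ).mapMatrix (PP N q) k).symm
  have hPow : Pc ^ (N + 1) = Pc ^ N := by rw [hpow, hpow, PP_pow_succ]
  have hset : {r : ℝ | ∃ z ∈ spectrum ℂ (-((QQ N q).map (algebraMap ℝ ℂ))), z ≠ 0 ∧ r = z.re}
      = {1} := by
    rw [hneg]
    ext r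
    simp only [Set.mem_ofPred_eq, Set.mem_singleton_iff]
    constructor
    · rintro ⟨z, hz, hz0, rfl⟩
      have h1 := spectrum.subset_polynomial_aeval (1 - Pc)
        (Polynomial.X * (1 - Polynomial.X) ^ N : Polynomial ℂ) ⟨z, hz, rfl⟩
      have h2 : Polynomial.aeval (1 - Pc) (Polynomial.X * (1 - Polynomial.X) ^ N : Polynomial ℂ)
          = 0 := by
        simp only [map_mul, Polynomial.aeval_X, map_pow, map_sub, map_one, sub_sub_cancel]
        rw [sub_mul, one_mul, ← pow_succ', hPow, sub_self]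
      rw [h2, spectrum.zero_eq] at h1
      simp only [Polynomial.eval_mul, Polynomial.eval_X, Polynomial.eval_pow,
        Polynomial.eval_sub, Polynomial.eval_one, Set.mem_singleton_iff] at h1
      rcases mul_eq_zero.mp h1 with h | h
      · exact absurd h hz0
      · have h3 := pow_eq_zero_iff (by omega) |>.mp h
        have h4 : z = 1 := by linear_combination -h3
        rw [h4]; simp
    · rintro rfl
      refine ⟨1, ?_, one_ne_zero, by simp⟩
      rw [spectrum.mem_iff]
      have h1 : algebraMap ℂ (Matrix (Fin (N + 1)) (Fin (N + 1)) ℂ) 1 - (1 - Pc) = Pc := by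
        rw [map_one]; abel
      rw [h1]
      intro hu
      have h2 : Pc.det = 0 := by
        refine Matrix.det_zero_of_row_eq (i := (⟨N - 1, by omega⟩ : Fin (N + 1)))
          (j := Fin.last N) ?_ ?_
        · intro h; have := congrArg Fin.val h; simp at this; omega
        · have hs : sh (⟨N - 1, by omega⟩ : Fin (N + 1)) = sh (Fin.last N) := by
            apply Fin.ext; simp [sh]; omega
          ext y
          simp only [hPc, Matrix.map_apply, PP, hs]
      have h3 := (Matrix.isUnit_iff_isUnit_det _).mp hu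
      rw [h2] at h3
      simp at h3
  unfold specGap
  rw [hset, csInf_singleton]

end chain

/-! ### The choice of parameters -/

/-- the rate of catastrophes: `(1 - q)^N = 3/5` -/
def qq (N : ℕ) : ℝ := 1 - (3 / 5 : ℝ) ^ ((1 : ℝ) / N)

theorem qq_pow {N : ℕ} (hN : 1 ≤ N) : (1 - qq N) ^ N = 3 / 5 := by
  have hN' : (N : ℝ) ≠ 0 := by positivity
  rw [qq, sub_sub_cancel, ← Real.rpow_natCast, ← Real.rpow_mul (by norm_num)]
  rw [one_div, inv_mul_cancel₀ hN', Real.rpow_one]

theorem qq_pos {N : ℕ} (hN : 1 ≤ N) : 0 < qq N := by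
  have hN' : (0 : ℝ) < 1 / N := by positivity
  have := Real.rpow_lt_one (x := 3 / 5) (by norm_num) (by norm_num) hN'
  unfold qq; linarith

theorem qq_lt_one (N : ℕ) : qq N < 1 := by
  have := Real.rpow_pos_of_pos (x := 3 / 5) (by norm_num) (1 / N)
  unfold qq; linarith

theorem qq_tendsto : Tendsto (fun n : ℕ => qq (n + 1)) atTop (𝓝 0) := by
  have h1 : Tendsto (fun n : ℕ => (1 : ℝ) / ((n + 1 : ℕ) : ℝ)) atTop (𝓝 0) := by
    have := tendsto_one_div_add_atTop_nhds_zero_nat (𝕜 := ℝ)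
    refine this.congr fun n => ?_
    push_cast; rfl
  have h2 : Tendsto (fun n : ℕ => (3 / 5 : ℝ) ^ ((1 : ℝ) / ((n + 1 : ℕ) : ℝ))) atTop
      (𝓝 ((3 / 5 : ℝ) ^ (0 : ℝ))) :=
    (Real.continuousAt_const_rpow (by norm_num)).tendsto.comp h1
  rw [Real.rpow_zero] at h2
  have h3 := h2.const_sub 1
  simpa [qq] using h3

/-- **Q1 is false.** There are finite irreducible continuous-time chains for which the median
`τ` is unique, `τ / τ₂ → ∞`, but with `ε = 1/10` the first of the two convergences fails: for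
every `n` no state `x` has `‖P_x(X_{(1-ε)τ} ∈ ·) - π‖ > 1 - ε`. -/
theorem result :
    ∃ (N : ℕ → ℕ) (Q : ∀ n, Matrix (Fin (N n)) (Fin (N n)) ℝ) (π : ∀ n, Fin (N n) → ℝ)
      (τ : ℕ → ℝ),
      (∀ n, IsGenerator (Q n) ∧ IsIrreducible (Q n) ∧ IsStationary (π n) (Q n) ∧
        ∀ m, IsMedian (π n) (tauAt (Q n) (π n)) m ↔ m = τ n) ∧
      Tendsto (fun n => τ n / relaxTime (Q n)) atTop atTop ∧
      ∃ ε : ℝ, 0 < ε ∧
        (∀ n, ∀ x, dist (Q n) (π n) x ((1 - ε) * τ n) < 1 - ε) ∧
        ¬ (Tendsto (fun n => ∑ x with 1 - ε < dist (Q n) (π n) x ((1 - ε) * τ n), π n x)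
              atTop (𝓝 1) ∧
            Tendsto (fun n => ∑ x with dist (Q n) (π n) x ((1 + ε) * τ n) < ε, π n x)
              atTop (𝓝 1)) := by
  set T : ℕ → ℝ := fun n =>
    tauAt (QQ (n + 1) (qq (n + 1))) (pp (n + 1) (qq (n + 1))) (Fin.last (n + 1)) with hT
  have hq0 : ∀ n : ℕ, 0 < qq (n + 1) := fun n => qq_pos (by omega)
  have hq1 : ∀ n : ℕ, qq (n + 1) < 1 := fun n => qq_lt_one _
  have hlast : ∀ n : ℕ, pp (n + 1) (qq (n + 1)) (Fin.last (n + 1)) = 3 / 5 := by
    intro n
    have : pp (n + 1) (qq (n + 1)) (Fin.last (n + 1)) = (1 - qq (n + 1)) ^ (n + 1) := by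
      simp [pp]
    rw [this, qq_pow (by omega)]
  have hTlow : ∀ n, Real.log (20 / 17) / qq (n + 1) ≤ T n := by
    intro n
    refine le_csInf ?_ ?_
    · -- nonempty
      refine ⟨Real.log 4 / qq (n + 1), ?_, ?_⟩
      · exact div_nonneg (Real.log_nonneg (by norm_num)) (hq0 n).le
      · have h := dist_le (N := n + 1) (hq0 n).le (hq1 n).le
          (div_nonneg (Real.log_nonneg (by norm_num : (1 : ℝ) ≤ 4)) (hq0 n).le) (Fin.last (n + 1))
        have h2 : qq (n + 1) * (Real.log 4 / qq (n + 1)) = Real.log 4 := by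
          have := (hq0 n).ne'
          field_simp
        rw [h2, Real.exp_neg, Real.exp_log (by norm_num)] at h
        norm_num at h ⊢
        exact h
    · rintro t ⟨ht0, ht⟩
      have h := le_dist_last (N := n + 1) (hq0 n).le (hq1 n).le ht0
      rw [qq_pow (by omega)] at h
      have h2 : Real.exp (-(qq (n + 1) * t)) ≤ 17 / 20 := by linarith
      have h3 : -(qq (n + 1) * t) ≤ Real.log (17 / 20) := by
        rw [← Real.exp_le_exp, Real.exp_log (by norm_num)]; exact h2
      have h4 : Real.log (20 / 17) = -Real.log (17 / 20) := by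
        rw [← Real.log_inv]; norm_num
      rw [div_le_iff₀ (hq0 n), h4]
      linarith
  have hTpos : ∀ n, 0 < T n := fun n =>
    lt_of_lt_of_le (div_pos (Real.log_pos (by norm_num)) (hq0 n)) (hTlow n)
  have hdist : ∀ n, ∀ x : Fin (n + 1 + 1),
      dist (QQ (n + 1) (qq (n + 1))) (pp (n + 1) (qq (n + 1))) x ((1 - 1 / 10) * T n)
        < 1 - 1 / 10 := by
    intro n x
    have h1 : 0 ≤ (1 - 1 / 10) * T n := by have := hTpos n; linarith
    have h := dist_le (N := n + 1) (hq0 n).le (hq1 n).le h1 x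
    refine lt_of_le_of_lt h ?_
    set w := Real.exp (-(qq (n + 1) * ((1 - 1 / 10) * T n))) with hw
    have hw0 : 0 ≤ w := (Real.exp_pos _).le
    have h2 : w ^ 10 ≤ (17 / 20 : ℝ) ^ 9 := by
      have h3 : w ^ 10 = (Real.exp (-(qq (n + 1) * T n))) ^ 9 := by
        rw [hw, ← Real.exp_nat_mul, ← Real.exp_nat_mul]
        congr 1
        push_cast
        ring
      rw [h3]
      refine pow_le_pow_left₀ (Real.exp_pos _).le ?_ 9
      have h4 := hTlow n
      rw [div_le_iff₀ (hq0 n)] at h4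
      have h5 : Real.log (20 / 17) = -Real.log (17 / 20) := by
        rw [← Real.log_inv]; norm_num
      have h6 : -(qq (n + 1) * T n) ≤ Real.log (17 / 20) := by linarith
      calc Real.exp (-(qq (n + 1) * T n)) ≤ Real.exp (Real.log (17 / 20)) :=
            Real.exp_le_exp.mpr h6
        _ = 17 / 20 := Real.exp_log (by norm_num)
    by_contra hcon
    push Not at hcon
    have h7 : (1 - 1 / 10 : ℝ) ^ 10 ≤ w ^ 10 := pow_le_pow_left₀ (by norm_num) hcon 10
    have h8 : (17 / 20 : ℝ) ^ 9 < (1 - 1 / 10) ^ 10 := by norm_num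
    linarith
  refine ⟨fun n => n + 1 + 1, fun n => QQ (n + 1) (qq (n + 1)), fun n => pp (n + 1) (qq (n + 1)),
    T, ?_, ?_, 1 / 10, by norm_num, hdist, ?_⟩
  · intro n
    refine ⟨QQ_generator (hq0 n).le (hq1 n).le, QQ_irreducible (hq0 n) (hq1 n),
      QQ_stationary (hq0 n).le (hq1 n).le, fun m => ⟨?_, ?_⟩⟩
    · rintro ⟨h1, h2⟩
      have hcompl : ∀ s : Finset (Fin (n + 1 + 1)), Fin.last (n + 1) ∉ s →
          ∑ x ∈ s, pp (n + 1) (qq (n + 1)) x ≤ 2 / 5 := by
        intro s hs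
        have h3 : ∑ x ∈ insert (Fin.last (n + 1)) s, pp (n + 1) (qq (n + 1)) x ≤ 1 := by
          rw [← pp_sum (N := n + 1) (qq (n + 1))]
          exact Finset.sum_le_sum_of_subset_of_nonneg (Finset.subset_univ _)
            fun x _ _ => pp_nonneg (hq0 n).le (hq1 n).le x
        rw [Finset.sum_insert hs, hlast] at h3
        linarith
      rcases lt_trichotomy m (T n) with h | h | h
      · exfalso
        have h3 := hcompl (Finset.univ.filter fun x =>
          tauAt (QQ (n + 1) (qq (n + 1))) (pp (n + 1) (qq (n + 1))) x ≤ m) (by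
            simp only [Finset.mem_filter, Finset.mem_univ, true_and, not_le]
            exact h)
        linarith
      · exact h
      · exfalso
        have h3 := hcompl (Finset.univ.filter fun x =>
          m ≤ tauAt (QQ (n + 1) (qq (n + 1))) (pp (n + 1) (qq (n + 1))) x) (by
            simp only [Finset.mem_filter, Finset.mem_univ, true_and, not_le]
            exact h)
        linarith
    · rintro rfl
      have hge : ∀ s : Finset (Fin (n + 1 + 1)), Fin.last (n + 1) ∈ s →
          1 / 2 ≤ ∑ x ∈ s, pp (n + 1) (qq (n + 1)) x := by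
        intro s hs
        have h3 := Finset.single_le_sum (f := pp (n + 1) (qq (n + 1)))
          (fun x _ => pp_nonneg (hq0 n).le (hq1 n).le x) hs
        rw [hlast] at h3
        linarith
      exact ⟨hge _ (by simp [hT]), hge _ (by simp [hT])⟩
  · have h1 : ∀ n : ℕ, relaxTime (QQ (n + 1) (qq (n + 1))) = 1 := by
      intro n; rw [relaxTime, specGap_QQ (by omega)]; norm_num
    simp only [h1, div_one]
    refine tendsto_atTop_mono hTlow ?_
    have h2 : Tendsto (fun n : ℕ => qq (n + 1)) atTop (𝓝[>] 0) :=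
      tendsto_nhdsWithin_iff.mpr ⟨qq_tendsto, Eventually.of_forall fun n => hq0 n⟩
    have h3 := h2.inv_tendsto_nhdsGT_zero
    have h4 := h3.const_mul_atTop (Real.log_pos (by norm_num : (1 : ℝ) < 20 / 17))
    simpa [div_eq_mul_inv] using h4
  · rintro ⟨h1, _⟩
    have h2 : (fun n => ∑ x with 1 - 1 / 10 < dist (QQ (n + 1) (qq (n + 1)))
        (pp (n + 1) (qq (n + 1))) x ((1 - 1 / 10) * T n), pp (n + 1) (qq (n + 1)) x)
        = fun _ => (0 : ℝ) := by
      funext n
      rw [Finset.filter_false_of_mem (fun x _ => not_lt.mpr (hdist n x).le), Finset.sum_empty]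
    rw [h2] at h1
    have h3 := tendsto_nhds_unique h1 tendsto_const_nhds
    norm_num at h3

end

end Pool.Agent.Results.MP_d1aba8_pr.TypicalStartFails
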